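import Mathlib
import Pool.Agent.H.MP_7cc102_co.A

set_option autoImplicit false

namespace Pool.Agent.Results.MP_7cc102_co.Both

open Finset Classical

/-- Total dominating set. -/
def TDS {n : ℕ} (G : SimpleGraph (Fin n)) (S : Finset (Fin n)) : Prop := ∀ v, ∃ u ∈ S, G.Adj v u

/-- No induced `K_{1,3}`. -/
def ClawFree {n : ℕ} (G : SimpleGraph (Fin n)) : Prop :=
  ∀ v a b c, G.Adj v a → G.Adj v b → G.Adj v c → a ≠ b → a ≠ c → b ≠ c →
    G.Adj a b ∨ G.Adj a c ∨ G.Adj b c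

/-- Some nonempty family of total dominating sets has `|F| / m(F) ≥ r`. -/
def FTDge {n : ℕ} (G : SimpleGraph (Fin n)) (r : ℝ) : Prop :=
  ∃ F : Multiset (Finset (Fin n)), F ≠ 0 ∧ (∀ S ∈ F, TDS G S) ∧
    r ≤ (F.card : ℝ) / (univ.sup fun v => F.countP (v ∈ ·) : ℕ)

theorem mk {n : ℕ} (G : SimpleGraph (Fin n)) (hG : G.Connected) {ι : Type} [Fintype ι]
    [Nonempty ι] (S : ι → Finset (Fin n)) (h : ∀ i, TDS G (S i)) (m : ℕ)
    (hm : ∀ v, #{i | v ∈ S i} ≤ m) : FTDge G (Fintype.card ι / m) := by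
  obtain ⟨i⟩ := ‹Nonempty ι›
  obtain ⟨v⟩ := hG.nonempty
  obtain ⟨u, hu, -⟩ := h i v
  have e : ∀ v, (univ.val.map S).countP (v ∈ ·) = #{i | v ∈ S i} := fun v => by
    rw [Multiset.countP_map]
    rfl
  refine ⟨univ.val.map S, by simpa using univ_nonempty.ne_empty, by simpa using h, ?_⟩
  simp only [e, Multiset.card_map, card_val, card_univ]
  refine div_le_div_of_nonneg_left (by positivity) (Nat.cast_pos.2 ?_)
    (Nat.cast_le.2 (Finset.sup_le fun v _ => hm v))
  exact (card_pos.2 ⟨i, mem_filter.2 ⟨mem_univ _, hu⟩⟩).trans_le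
    (le_sup (f := fun v => #{i | v ∈ S i}) (mem_univ u))

theorem one {n : ℕ} (G : SimpleGraph (Fin n)) (hG : G.Connected) (hc : ClawFree G)
    (hd : ∀ v, 2 ≤ G.degree v) : FTDge G (2 - 4 / (n + 2)) := by
  obtain ⟨f, S, T, hf, h⟩ := H.MP_7cc102_co.q1 G hG hc hd
  have := hG.nonempty
  have k := mk G hG (Sum.elim S T) (by rintro (y | y); exacts [(h y).1, (h y).2.1]) (n + 2)
    fun v => by
      have a := card_union_add_card_inter ({y | v ∈ S y} : Finset _) ({y | v ∈ T y} : Finset _)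
      have b : #(({y | v ∈ S y} : Finset _) ∪ ({y | v ∈ T y} : Finset _)) ≤ n :=
        (card_le_univ _).trans_eq (Fintype.card_fin n)
      have c : #(({y | v ∈ S y} : Finset _) ∩ ({y | v ∈ T y} : Finset _)) ≤ 1 + 1 :=
        (card_le_card (t := {v} ∪ univ.filter fun y => f y = v) fun y hy => by
          simp only [mem_inter, mem_filter, mem_univ, true_and, mem_union, mem_singleton] at hy ⊢
          exact ((h y).2.2 v hy.1 hy.2).imp Eq.symm Eq.symm).trans ((card_union_le _ _).trans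
          (add_le_add (card_singleton _).le (card_le_one.2 fun x p y q =>
            hf ((mem_filter.1 p).2.trans (mem_filter.1 q).2.symm))))
      rw [card_filter, card_filter] at a
      rw [card_filter, Fintype.sum_sum_type]
      exact a.ge.trans (add_le_add b c)
  rwa [show ((Fintype.card (Fin n ⊕ Fin n) : ℝ) / (n + 2 : ℕ)) = 2 - 4 / (n + 2) by
    simp only [Fintype.card_sum, Fintype.card_fin]
    push_cast
    field_simp
    ring] at k

theorem result :
    (∀ (n : ℕ) (G : SimpleGraph (Fin n)), G.Connected → ClawFree G → (∀ v, 2 ≤ G.degree v) →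
      FTDge G (2 - 4 / (n + 2))) ∧
    (∀ ε : ℝ, 0 < ε → ∃ N : ℕ, ∀ n ≥ N, ∀ G : SimpleGraph (Fin n), G.Connected → ClawFree G →
      (∀ v, 2 ≤ G.degree v) → FTDge G (2 - ε)) ∧
    ∀ (n : ℕ) (G : SimpleGraph (Fin n)), G.Connected → ClawFree G → (∀ v, 3 ≤ G.degree v) →
      FTDge G 2 := by
  refine ⟨fun n => one, fun ε h => ?_, fun n G hG hc hd => ?_⟩
  · obtain ⟨N, hN⟩ := exists_nat_ge (4 / ε)
    refine ⟨N, fun n hn G hG hc hd => ?_⟩
    obtain ⟨F, a, b, c⟩ := one G hG hc hd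
    refine ⟨F, a, b, le_trans (sub_le_sub_left ?_ 2) c⟩
    have : (N : ℝ) ≤ n := Nat.cast_le.2 hn
    rw [div_le_iff₀ h] at hN
    rw [div_le_iff₀ (by positivity)]
    nlinarith
  · obtain ⟨S, a, b⟩ := H.MP_7cc102_co.q2 G hG hc hd
    have k := mk G hG S a 2 b
    norm_num at k
    exact k

end Pool.Agent.Results.MP_7cc102_co.Both
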